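import Mathlib

/-!
# Circuits with arbitrary monotone gates and few NOT gates
-/

set_option autoImplicit false

namespace Pool.Agent.Q330.NEG

open Finset
open scoped Classical

/-- A circuit whose inputs are the subsets `x` of `X`. The values of the nodes are `val x i`. A node
is a NOT gate, which negates an earlier node, or its value is a monotone function of `x` and of the
values of the earlier nodes. -/
structure Circuit (X : Type) where
  /-- the number of the nodes -/
  s : ℕ
  /-- the values of the nodes -/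
  val : Finset X → Fin s → Prop
  /-- the NOT gates -/
  nots : Finset (Fin s)
  not_gate : ∀ i ∈ nots, ∃ p, p < i ∧ ∀ x, (val x i ↔ ¬ val x p)
  mono_gate : ∀ i, i ∉ nots → ∀ x x', x ⊆ x' → (∀ j, j < i → val x j → val x' j) →
    val x i → val x' i

variable {X : Type} (C : Circuit X)

theorem lift {x x' : Finset X} (hx : x ⊆ x') (i : ℕ)
    (h : ∀ j ∈ C.nots, (j : ℕ) < i → C.val x j → C.val x' j) :
    ∀ l : ℕ, ∀ hl : l < C.s, l < i → C.val x ⟨l, hl⟩ → C.val x' ⟨l, hl⟩ := by
  intro l
  induction l using Nat.strong_induction_on with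
  | _ l ih =>
    intro hl hli hv
    by_cases hn : (⟨l, hl⟩ : Fin C.s) ∈ C.nots
    · exact h _ hn hli hv
    · refine C.mono_gate _ hn x x' hx (fun j hj hvj => ?_) hv
      exact ih j hj j.2 (lt_trans hj hli) hvj

/-- If no NOT gate changes, then no node decreases. -/
theorem lift_all {x x' : Finset X} (hx : x ⊆ x')
    (h : ∀ j ∈ C.nots, (C.val x j ↔ C.val x' j)) (i : Fin C.s) : C.val x i → C.val x' i :=
  lift C hx C.s (fun j hj _ => (h j hj).1) i i.2 i.2

/-- The first NOT gate which changes decreases. -/
theorem first {x x' : Finset X} (hx : x ⊆ x') {i : Fin C.s} (hi : i ∈ C.nots)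
    (hch : ¬ (C.val x i ↔ C.val x' i)) (h : ∀ j ∈ C.nots, j < i → (C.val x j ↔ C.val x' j)) :
    C.val x i ∧ ¬ C.val x' i := by
  obtain ⟨p, hp, hv⟩ := C.not_gate i hi
  have h1 := lift C hx i (fun j hj hji => (h j hj hji).1) p p.2 hp
  rw [hv x, hv x'] at hch ⊢
  tauto

/-- The weights of the NOT gates. -/
noncomputable def wt (S : Finset (Fin C.s)) (i : Fin C.s) : ℕ := 2 ^ (S.filter fun j => i < j).card

theorem sum_wt {n : ℕ} (S : Finset (Fin n)) :
    ∑ i ∈ S, 2 ^ (S.filter fun j => i < j).card + 1 = 2 ^ S.card := by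
  induction S using Finset.induction_on_min with
  | empty => simp
  | insert a S ha ih =>
    have hn : a ∉ S := fun h => lt_irrefl a (ha a h)
    rw [sum_insert hn, card_insert_of_notMem hn, pow_succ]
    have h1 : ((insert a S).filter fun j => a < j) = S := by
      ext j
      rw [mem_filter, mem_insert]
      constructor
      · rintro ⟨rfl | h, h2⟩
        · exact absurd h2 (lt_irrefl _)
        · exact h
      · intro h
        exact ⟨Or.inr h, ha j h⟩
    have h2 : ∑ i ∈ S, 2 ^ ((insert a S).filter fun j => i < j).card =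
        ∑ i ∈ S, 2 ^ (S.filter fun j => i < j).card := by
      refine sum_congr rfl fun i hi => ?_
      congr 2
      ext j
      rw [mem_filter, mem_filter, mem_insert]
      constructor
      · rintro ⟨rfl | h, h3⟩
        · exact absurd h3 (not_lt.2 (ha i hi).le)
        · exact ⟨h, h3⟩
      · rintro ⟨h, h3⟩
        exact ⟨Or.inr h, h3⟩
    rw [h1, h2]
    omega

/-- The potential. -/
noncomputable def pot (x : Finset X) : ℕ :=
  ∑ i ∈ C.nots, if C.val x i then 2 ^ (C.nots.filter fun j => i < j).card else 0

theorem pot_le (x : Finset X) : pot C x + 1 ≤ 2 ^ C.nots.card := by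
  rw [← sum_wt C.nots]
  refine Nat.add_le_add_right (sum_le_sum fun i _ => ?_) 1
  split_ifs
  · exact le_rfl
  · exact Nat.zero_le _

theorem pot_split (x : Finset X) {i : Fin C.s} (hi : i ∈ C.nots) :
    pot C x = (∑ j ∈ C.nots.filter (fun j => j < i),
        if C.val x j then 2 ^ (C.nots.filter fun l => j < l).card else 0) +
      ((if C.val x i then 2 ^ (C.nots.filter fun l => i < l).card else 0) +
      ∑ j ∈ C.nots.filter (fun j => i < j),
        if C.val x j then 2 ^ (C.nots.filter fun l => j < l).card else 0) := by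
  unfold pot
  rw [← sum_filter_add_sum_filter_not C.nots (fun j => j < i)]
  congr 1
  have h1 : C.nots.filter (fun j => ¬ j < i) = insert i (C.nots.filter fun j => i < j) := by
    ext j
    rw [mem_filter, mem_insert, mem_filter]
    constructor
    · rintro ⟨h1, h2⟩
      rcases lt_or_eq_of_le (not_lt.1 h2) with h | h
      · exact Or.inr ⟨h1, h⟩
      · exact Or.inl h.symm
    · rintro (rfl | ⟨h1, h2⟩)
      · exact ⟨hi, lt_irrefl _⟩
      · exact ⟨h1, not_lt.2 h2.le⟩
  rw [h1, sum_insert]
  rw [mem_filter]
  exact fun h => lt_irrefl _ h.2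

/-- Some NOT gate changes. -/
def Chg (x x' : Finset X) : Prop := ∃ i ∈ C.nots, ¬ (C.val x i ↔ C.val x' i)

theorem pot_step {x x' : Finset X} (hx : x ⊆ x') :
    pot C x' + (if Chg C x x' then 1 else 0) ≤ pot C x := by
  by_cases hc : Chg C x x'
  · rw [if_pos hc]
    obtain ⟨i, hi, hmin⟩ := exists_min_image (C.nots.filter fun i => ¬ (C.val x i ↔ C.val x' i))
      (fun i => i) (by
        obtain ⟨i, hi, h⟩ := hc
        exact ⟨i, mem_filter.2 ⟨hi, h⟩⟩)
    rw [mem_filter] at hi
    have hbefore : ∀ j ∈ C.nots, j < i → (C.val x j ↔ C.val x' j) := by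
      intro j hj hji
      by_contra hcon
      exact absurd (hmin j (mem_filter.2 ⟨hj, hcon⟩)) (not_le.2 hji)
    obtain ⟨h1, h2⟩ := first C hx hi.1 hi.2 hbefore
    rw [pot_split C x hi.1, pot_split C x' hi.1, if_pos h1, if_neg h2]
    have h3 : (∑ j ∈ C.nots.filter (fun j => j < i),
        if C.val x' j then 2 ^ (C.nots.filter fun l => j < l).card else 0) =
        ∑ j ∈ C.nots.filter (fun j => j < i),
        if C.val x j then 2 ^ (C.nots.filter fun l => j < l).card else 0 := by
      refine sum_congr rfl fun j hj => ?_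
      rw [mem_filter] at hj
      simp only [hbefore j hj.1 hj.2]
    have h4 : (∑ j ∈ C.nots.filter (fun j => i < j),
        if C.val x' j then 2 ^ (C.nots.filter fun l => j < l).card else 0) + 1 ≤
        2 ^ (C.nots.filter fun l => i < l).card := by
      rw [← sum_wt (C.nots.filter fun j => i < j)]
      refine Nat.add_le_add_right (sum_le_sum fun j hj => ?_) 1
      rw [mem_filter] at hj
      have h5 : (C.nots.filter fun l => j < l) =
          ((C.nots.filter fun l => i < l).filter fun l => j < l) := by
        ext l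
        rw [mem_filter, mem_filter, mem_filter]
        constructor
        · rintro ⟨a, b⟩
          exact ⟨⟨a, hj.2.trans b⟩, b⟩
        · rintro ⟨⟨a, -⟩, b⟩
          exact ⟨a, b⟩
      split_ifs
      · rw [h5]
      · exact Nat.zero_le _
    rw [h3]
    omega
  · rw [if_neg hc, add_zero]
    unfold Chg at hc
    push Not at hc
    refine le_of_eq (sum_congr rfl fun i hi => ?_)
    simp only [hc i hi]

/-- The number of the steps at which a NOT gate changes. -/
theorem changes (x : ℕ → Finset X) (L : ℕ) (hx : ∀ t < L, x t ⊆ x (t + 1)) :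
    ∑ t ∈ range L, (if Chg C (x t) (x (t + 1)) then 1 else 0) + 1 ≤ 2 ^ C.nots.card := by
  have h : ∀ L' ≤ L, ∑ t ∈ range L', (if Chg C (x t) (x (t + 1)) then 1 else 0) +
      pot C (x L') ≤ pot C (x 0) := by
    intro L'
    induction L' with
    | zero => simp
    | succ n ih =>
      intro hn
      rw [sum_range_succ]
      have h1 := ih (by omega)
      have h2 := pot_step C (hx n (by omega))
      omega
  have h1 := h L le_rfl
  have h2 := pot_le C (x 0)
  omega

/-- Increasing and decreasing steps alternate. -/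
theorem inc_dec (u : ℕ → Prop) (L : ℕ) :
    ∑ t ∈ range L, (if ¬ u t ∧ u (t + 1) then 1 else 0) + (if u 0 then 1 else 0) =
      ∑ t ∈ range L, (if u t ∧ ¬ u (t + 1) then 1 else 0) + (if u L then 1 else 0) := by
  induction L with
  | zero => simp
  | succ n ih =>
    rw [sum_range_succ, sum_range_succ]
    by_cases h1 : u n <;> by_cases h2 : u (n + 1) <;> simp only [h1, h2, not_true, not_false_iff,
      and_true, and_false, and_self, if_true, if_false, false_and] at ih ⊢ <;> omega

/-- If at least `c` of the words which are computed by the circuit change in each step of a chain,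
then there are many NOT gates. -/
theorem core {E J : Type} [Fintype E] [Fintype J] (out : E → J → Fin C.s) (x : ℕ → Finset X)
    (L : ℕ) (hx : ∀ t < L, x t ⊆ x (t + 1)) (c : ℝ)
    (h : ∀ t < L, c ≤ ((univ.filter fun e : E =>
      ∃ j, ¬ (C.val (x t) (out e j) ↔ C.val (x (t + 1)) (out e j))).card : ℝ)) :
    c * L ≤ Fintype.card E * ((Fintype.card J + 1) * 2 ^ C.nots.card - 1) := by
  obtain ⟨K, hK⟩ : ∃ K, K = ∑ t ∈ range L, (if Chg C (x t) (x (t + 1)) then 1 else 0) := ⟨_, rfl⟩
  have hK1 : K + 1 ≤ 2 ^ C.nots.card := by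
    rw [hK]
    exact changes C x L hx
  have hinc : ∀ o : Fin C.s,
      ∑ t ∈ range L, (if ¬ C.val (x t) o ∧ C.val (x (t + 1)) o then 1 else 0) ≤ K + 1 := by
    intro o
    have h1 := inc_dec (fun t => C.val (x t) o) L
    have h2 : ∑ t ∈ range L, (if C.val (x t) o ∧ ¬ C.val (x (t + 1)) o then 1 else 0) ≤ K := by
      rw [hK]
      refine sum_le_sum fun t ht => ?_
      by_cases hd : C.val (x t) o ∧ ¬ C.val (x (t + 1)) o
      · have h3 : Chg C (x t) (x (t + 1)) := by
          by_contra hcon
          unfold Chg at hcon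
          push Not at hcon
          exact hd.2 (lift_all C (hx t (mem_range.1 ht)) hcon o hd.1)
        rw [if_pos hd, if_pos h3]
      · rw [if_neg hd]
        exact Nat.zero_le _
    have h3 : (if C.val (x L) o then 1 else 0) ≤ 1 := by split_ifs <;> omega
    omega
  have hstep : ∀ t ∈ range L, (univ.filter fun e : E =>
      ∃ j, ¬ (C.val (x t) (out e j) ↔ C.val (x (t + 1)) (out e j))).card ≤
      Fintype.card E * (if Chg C (x t) (x (t + 1)) then 1 else 0) + ∑ e : E, ∑ j : J,
        (if ¬ C.val (x t) (out e j) ∧ C.val (x (t + 1)) (out e j) then 1 else 0) := by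
    intro t ht
    by_cases hc : Chg C (x t) (x (t + 1))
    · rw [if_pos hc, mul_one]
      exact (card_le_univ _).trans (Nat.le_add_right _ _)
    · rw [if_neg hc, mul_zero, zero_add, card_filter]
      refine sum_le_sum fun e _ => ?_
      split_ifs with hj
      · obtain ⟨j, hj⟩ := hj
        refine le_trans ?_ (single_le_sum (fun j _ => Nat.zero_le _) (mem_univ j))
        unfold Chg at hc
        push Not at hc
        have h1 := lift_all C (hx t (mem_range.1 ht)) hc (out e j)
        rw [if_pos]
        tauto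
      · exact Nat.zero_le _
  have htot : ∑ t ∈ range L, (univ.filter fun e : E =>
      ∃ j, ¬ (C.val (x t) (out e j) ↔ C.val (x (t + 1)) (out e j))).card ≤
      Fintype.card E * K + Fintype.card E * (Fintype.card J * (K + 1)) := by
    refine (sum_le_sum hstep).trans ?_
    rw [sum_add_distrib, ← mul_sum, ← hK]
    refine Nat.add_le_add_left ?_ _
    rw [sum_comm]
    calc ∑ e : E, ∑ t ∈ range L, ∑ j : J,
          (if ¬ C.val (x t) (out e j) ∧ C.val (x (t + 1)) (out e j) then 1 else 0)
        ≤ ∑ e : E, Fintype.card J * (K + 1) := by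
          refine sum_le_sum fun e _ => ?_
          rw [sum_comm]
          refine (sum_le_card_nsmul univ _ (K + 1) fun j _ => hinc (out e j)).trans ?_
          rw [smul_eq_mul, card_univ]
      _ = _ := by rw [sum_const, smul_eq_mul, card_univ]
  have h1 : c * L ≤ ((∑ t ∈ range L, (univ.filter fun e : E =>
      ∃ j, ¬ (C.val (x t) (out e j) ↔ C.val (x (t + 1)) (out e j))).card : ℕ) : ℝ) := by
    push_cast
    calc c * L = ∑ t ∈ range L, c := by rw [sum_const, card_range, nsmul_eq_mul, mul_comm]
      _ ≤ _ := sum_le_sum fun t ht => h t (mem_range.1 ht)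
  have h2 : ((∑ t ∈ range L, (univ.filter fun e : E =>
      ∃ j, ¬ (C.val (x t) (out e j) ↔ C.val (x (t + 1)) (out e j))).card : ℕ) : ℝ) ≤
      Fintype.card E * K + Fintype.card E * (Fintype.card J * (K + 1)) := by
    exact_mod_cast htot
  have h3 : (K : ℝ) + 1 ≤ 2 ^ C.nots.card := by exact_mod_cast hK1
  have h4 : (0 : ℝ) ≤ Fintype.card E := Nat.cast_nonneg _
  have h5 : (0 : ℝ) ≤ Fintype.card J := Nat.cast_nonneg _
  have h6 : (Fintype.card E : ℝ) * K + Fintype.card E * (Fintype.card J * (K + 1)) ≤
      Fintype.card E * ((Fintype.card J + 1) * 2 ^ C.nots.card - 1) := by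
    rw [← mul_add]
    refine mul_le_mul_of_nonneg_left ?_ h4
    nlinarith
  linarith

/-! ### Parity with few NOT gates -/

/-- Markov's circuit: the digits of the number of the elements and their negations. -/
def markov (X : Type) [Fintype X] (r : ℕ) (hr : Fintype.card X < 2 ^ (r + 1)) : Circuit X where
  s := 2 * r + 1
  val x i := if (i : ℕ) % 2 = 0 then x.card.testBit (r - i / 2) = true
    else ¬ x.card.testBit (r - i / 2) = true
  nots := univ.filter fun i => (i : ℕ) % 2 = 1
  not_gate := by
    intro i hi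
    have h1 := (mem_filter.1 hi).2
    have h2 : (i : ℕ) - 1 < 2 * r + 1 := by omega
    refine ⟨⟨i - 1, h2⟩, ?_, ?_⟩
    · rw [Fin.lt_def]
      simp only
      omega
    · intro x
      have h3 : ¬ (i : ℕ) % 2 = 0 := by omega
      have h4 : ((i : ℕ) - 1) % 2 = 0 := by omega
      have h5 : ((i : ℕ) - 1) / 2 = i / 2 := by omega
      rw [if_neg h3, if_pos h4, h5]
  mono_gate := by
    intro i hi x x' hx hbef hv
    have h1 : (i : ℕ) % 2 = 0 := by
      rw [mem_filter, not_and] at hi
      have := hi (mem_univ _)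
      omega
    rw [if_pos h1] at hv ⊢
    by_contra hcon
    rw [Bool.not_eq_true] at hcon
    have h2 : x'.card < x.card := by
      refine Nat.lt_of_testBit (r - i / 2) hcon hv fun j hj => ?_
      by_cases hjr : j ≤ r
      · have a1 : 2 * (r - j) < 2 * r + 1 := by omega
        have a2 : 2 * (r - j) + 1 < 2 * r + 1 := by omega
        have b1 := hbef ⟨2 * (r - j), a1⟩ (by rw [Fin.lt_def]; simp only; omega)
        have b2 := hbef ⟨2 * (r - j) + 1, a2⟩ (by rw [Fin.lt_def]; simp only; omega)
        have e1 : 2 * (r - j) % 2 = 0 := by omega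
        have e2 : ¬ (2 * (r - j) + 1) % 2 = 0 := by omega
        have e3 : r - 2 * (r - j) / 2 = j := by omega
        have e4 : r - (2 * (r - j) + 1) / 2 = j := by omega
        simp only [e1, e2, e3, e4, if_true, if_false] at b1 b2
        cases hb1 : x.card.testBit j <;> cases hb2 : x'.card.testBit j <;> simp_all
      · have hj2 : 2 ^ (r + 1) ≤ 2 ^ j := Nat.pow_le_pow_right (by norm_num) (by omega)
        rw [Nat.testBit_lt_two_pow, Nat.testBit_lt_two_pow]
        · exact lt_of_lt_of_le (lt_of_le_of_lt (card_le_univ _) hr) hj2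
        · exact lt_of_lt_of_le (lt_of_le_of_lt (card_le_univ _) hr) hj2
    exact absurd (card_le_card hx) (not_le.2 h2)

theorem markov_out {X : Type} [Fintype X] (r : ℕ) (hr : Fintype.card X < 2 ^ (r + 1))
    (x : Finset X) :
    (markov X r hr).val x ⟨2 * r, show 2 * r < 2 * r + 1 by omega⟩ ↔ x.card % 2 = 1 := by
  have e1 : 2 * r % 2 = 0 := by omega
  have e2 : r - 2 * r / 2 = 0 := by omega
  simp only [markov, e1, e2, if_true]
  rw [Nat.testBit_zero, decide_eq_true_iff]

theorem markov_nots {X : Type} [Fintype X] (r : ℕ) (hr : Fintype.card X < 2 ^ (r + 1)) :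
    (markov X r hr).nots.card = r := by
  have h : (markov X r hr).nots = (univ : Finset (Fin r)).image
      (fun i : Fin r => (⟨2 * (i : ℕ) + 1, by have := i.2; simp only [markov]; omega⟩ :
        Fin (markov X r hr).s)) := by
    ext i
    rw [mem_image]
    constructor
    · intro hi
      have h1 : (i : ℕ) % 2 = 1 := (mem_filter.1 hi).2
      have h2 : (i : ℕ) < 2 * r + 1 := i.2
      refine ⟨⟨i / 2, by omega⟩, mem_univ _, ?_⟩
      apply Fin.ext
      simp only
      omega
    · rintro ⟨j, -, rfl⟩
      refine mem_filter.2 ⟨mem_univ _, ?_⟩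
      simp only
      omega
  rw [h, card_image_of_injective, card_univ, Fintype.card_fin]
  intro a b hab
  simp only [Fin.mk.injEq] at hab
  exact Fin.ext (by omega)

theorem exists_parity (X : Type) [Fintype X] (r : ℕ) (hr : Fintype.card X < 2 ^ (r + 1)) :
    ∃ (C : Circuit X) (o : Fin C.s), C.nots.card = r ∧ ∀ x, (C.val x o ↔ x.card % 2 = 1) :=
  ⟨markov X r hr, _, markov_nots r hr, markov_out r hr⟩

end Pool.Agent.Q330.NEG
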