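import Mathlib
import Pool.Agent.Q330.NEG.Core

/-!
# The number of changes of the words computed by a circuit with few NOT gates
-/

set_option autoImplicit false

namespace Pool.Agent.Q330.NEG

open Finset
open scoped Classical

variable {X : Type} (C : Circuit X)

/-- The number of pairs (step of a chain, word which changes at this step). -/
theorem core_sum {E J : Type} [Fintype E] [Fintype J] (out : E → J → Fin C.s) (x : ℕ → Finset X)
    (L : ℕ) (hx : ∀ t < L, x t ⊆ x (t + 1)) :
    ∑ t ∈ range L, ((univ.filter fun e : E =>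
      ∃ j, ¬ (C.val (x t) (out e j) ↔ C.val (x (t + 1)) (out e j))).card : ℝ) ≤
      Fintype.card E * ((Fintype.card J + 1) * 2 ^ C.nots.card - 1) := by
  obtain ⟨K, hK⟩ : ∃ K, K = ∑ t ∈ range L, (if Chg C (x t) (x (t + 1)) then 1 else 0) := ⟨_, rfl⟩
  have hK1 : K + 1 ≤ 2 ^ C.nots.card := by
    rw [hK]
    exact changes C x L hx
  have hinc : ∀ o : Fin C.s,
      ∑ t ∈ range L, (if ¬ C.val (x t) o ∧ C.val (x (t + 1)) o then 1 else 0) ≤ K + 1 := by
    intro o
    have h1 := inc_dec (fun t => C.val (x t) o) L
    have h2 : ∑ t ∈ range L, (if C.val (x t) o ∧ ¬ C.val (x (t + 1)) o then 1 else 0) ≤ K := by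
      rw [hK]
      refine sum_le_sum fun t ht => ?_
      by_cases hd : C.val (x t) o ∧ ¬ C.val (x (t + 1)) o
      · have h3 : Chg C (x t) (x (t + 1)) := by
          by_contra hcon
          unfold Chg at hcon
          push Not at hcon
          exact hd.2 (lift_all C (hx t (mem_range.1 ht)) hcon o hd.1)
        rw [if_pos hd, if_pos h3]
      · rw [if_neg hd]
        exact Nat.zero_le _
    have h3 : (if C.val (x L) o then 1 else 0) ≤ 1 := by split_ifs <;> omega
    omega
  have hstep : ∀ t ∈ range L, (univ.filter fun e : E =>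
      ∃ j, ¬ (C.val (x t) (out e j) ↔ C.val (x (t + 1)) (out e j))).card ≤
      Fintype.card E * (if Chg C (x t) (x (t + 1)) then 1 else 0) + ∑ e : E, ∑ j : J,
        (if ¬ C.val (x t) (out e j) ∧ C.val (x (t + 1)) (out e j) then 1 else 0) := by
    intro t ht
    by_cases hc : Chg C (x t) (x (t + 1))
    · rw [if_pos hc, mul_one]
      exact (card_le_univ _).trans (Nat.le_add_right _ _)
    · rw [if_neg hc, mul_zero, zero_add, card_filter]
      refine sum_le_sum fun e _ => ?_
      split_ifs with hj
      · obtain ⟨j, hj⟩ := hj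
        refine le_trans ?_ (single_le_sum (fun j _ => Nat.zero_le _) (mem_univ j))
        unfold Chg at hc
        push Not at hc
        have h1 := lift_all C (hx t (mem_range.1 ht)) hc (out e j)
        rw [if_pos]
        tauto
      · exact Nat.zero_le _
  have htot : ∑ t ∈ range L, (univ.filter fun e : E =>
      ∃ j, ¬ (C.val (x t) (out e j) ↔ C.val (x (t + 1)) (out e j))).card ≤
      Fintype.card E * K + Fintype.card E * (Fintype.card J * (K + 1)) := by
    refine (sum_le_sum hstep).trans ?_
    rw [sum_add_distrib, ← mul_sum, ← hK]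
    refine Nat.add_le_add_left ?_ _
    rw [sum_comm]
    calc ∑ e : E, ∑ t ∈ range L, ∑ j : J,
          (if ¬ C.val (x t) (out e j) ∧ C.val (x (t + 1)) (out e j) then 1 else 0)
        ≤ ∑ e : E, Fintype.card J * (K + 1) := by
          refine sum_le_sum fun e _ => ?_
          rw [sum_comm]
          refine (sum_le_card_nsmul univ _ (K + 1) fun j _ => hinc (out e j)).trans ?_
          rw [smul_eq_mul, card_univ]
      _ = _ := by rw [sum_const, smul_eq_mul, card_univ]
  have h2 : ((∑ t ∈ range L, (univ.filter fun e : E =>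
      ∃ j, ¬ (C.val (x t) (out e j) ↔ C.val (x (t + 1)) (out e j))).card : ℕ) : ℝ) ≤
      Fintype.card E * K + Fintype.card E * (Fintype.card J * (K + 1)) := by
    exact_mod_cast htot
  have h3 : (K : ℝ) + 1 ≤ 2 ^ C.nots.card := by exact_mod_cast hK1
  have h4 : (0 : ℝ) ≤ Fintype.card E := Nat.cast_nonneg _
  have h5 : (0 : ℝ) ≤ Fintype.card J := Nat.cast_nonneg _
  have h6 : (Fintype.card E : ℝ) * K + Fintype.card E * (Fintype.card J * (K + 1)) ≤
      Fintype.card E * ((Fintype.card J + 1) * 2 ^ C.nots.card - 1) := by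
    rw [← mul_add]
    refine mul_le_mul_of_nonneg_left ?_ h4
    nlinarith
  push_cast at h2
  linarith

/-- The number of the odd numbers below `L`. -/
theorem sum_odd (L : ℕ) : ∑ t ∈ range L, (if t % 2 = 1 then 1 else 0) = L / 2 := by
  induction L with
  | zero => simp
  | succ n ih =>
    rw [sum_range_succ, ih]
    split_ifs <;> omega

end Pool.Agent.Q330.NEG
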